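import Pool.Agent.H64.GG.TC

/-!
# Row GAUS of the board GG: the Gauss lemma for an absolute value
-/

set_option autoImplicit false

open Finset Polynomial Pool.Agent.H64.GG

namespace Pool.Agent.H69.GG

/-- a finite sum of elements smaller than `B` is smaller than `B` -/
theorem ultra_sum_lt {M ι : Type} [Field M] (v : AbsoluteValue M ℝ)
    (hv : IsNonarchimedean v) (f : ι → M) (B : ℝ) (hB : 0 < B) (A : Finset ι)
    (h : ∀ k ∈ A, v (f k) < B) : v (∑ k ∈ A, f k) < B := by
  classical
  induction A using Finset.induction_on with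
  | empty => simpa using hB
  | insert a s ha ih =>
    rw [Finset.sum_insert ha]
    refine lt_of_le_of_lt (hv _ _) (max_lt (h a (Finset.mem_insert_self _ _)) ?_)
    exact ih fun k hk => h k (Finset.mem_insert_of_mem hk)

/-- **Row GAUS.** -/
theorem pf_GAUS : T_GAUS := by
  classical
  intro M _ w hw g h hg hg1 hgh
  by_contra hcon
  push Not at hcon
  obtain ⟨k₀, hk₀⟩ := hcon
  have hne : h.support.Nonempty := by
    refine ⟨k₀, ?_⟩
    rw [Polynomial.mem_support_iff]
    intro h0
    rw [h0, map_zero] at hk₀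
    linarith
  obtain ⟨m₀, hm₀, hmax⟩ := Finset.exists_max_image h.support (fun k => w (h.coeff k)) hne
  set B := w (h.coeff m₀) with hB
  have hle : ∀ k, w (h.coeff k) ≤ B := by
    intro k
    by_cases hk : k ∈ h.support
    · exact hmax k hk
    · rw [Polynomial.notMem_support_iff] at hk
      rw [hk, map_zero]
      exact w.nonneg _
  have hB1 : 1 < B := lt_of_lt_of_le hk₀ (hle k₀)
  have hex : ∃ m, w (h.coeff m) = B := ⟨m₀, rfl⟩
  let m := Nat.find hex
  have hm : w (h.coeff m) = B := Nat.find_spec hex
  have hmlt : ∀ j < m, w (h.coeff j) < B := fun j hj =>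
    lt_of_le_of_ne (hle j) (Nat.find_min hex hj)
  let l := Nat.find hg1
  have hl : w (g.coeff l) = 1 := Nat.find_spec hg1
  have hllt : ∀ j < l, w (g.coeff j) < 1 := fun j hj =>
    lt_of_le_of_ne (hg j) (Nat.find_min hg1 hj)
  have hmem : (l, m) ∈ Finset.HasAntidiagonal.antidiagonal (l + m) := by simp
  have h1 := hgh (l + m)
  rw [Polynomial.coeff_mul, ← Finset.add_sum_erase _ _ hmem] at h1
  have h2 : w (∑ x ∈ (Finset.HasAntidiagonal.antidiagonal (l + m)).erase (l, m),
      g.coeff x.1 * h.coeff x.2) < B := by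
    apply ultra_sum_lt w hw _ B (by linarith)
    intro x hx
    rw [Finset.mem_erase, Finset.HasAntidiagonal.mem_antidiagonal] at hx
    obtain ⟨hx1, hx2⟩ := hx
    rw [map_mul]
    rcases lt_trichotomy x.1 l with hlt | heq | hgt
    · have e1 := hllt _ hlt
      have e2 := hle x.2
      have e3 := w.nonneg (g.coeff x.1)
      have e4 := w.nonneg (h.coeff x.2)
      nlinarith
    · exfalso
      apply hx1
      ext
      · exact heq
      · omega
    · have e0 : x.2 < m := by omega
      have e1 := hmlt _ e0
      have e2 := hg x.1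
      have e3 := w.nonneg (g.coeff x.1)
      have e4 := w.nonneg (h.coeff x.2)
      nlinarith
  have h3 : w (g.coeff l * h.coeff m) = B := by rw [map_mul, hl, hm, one_mul]
  set R := ∑ x ∈ (Finset.HasAntidiagonal.antidiagonal (l + m)).erase (l, m),
    g.coeff x.1 * h.coeff x.2 with hR
  have h4 : g.coeff l * h.coeff m = (g.coeff l * h.coeff m + R) + -R := by ring
  have h5 : w (g.coeff l * h.coeff m) < B := by
    rw [h4]
    refine lt_of_le_of_lt (hw _ _) (max_lt (lt_of_le_of_lt h1 hB1) ?_)
    rw [AbsoluteValue.map_neg]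
    exact h2
  rw [h3] at h5
  exact lt_irrefl _ h5

end Pool.Agent.H69.GG
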