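import Pool.Agent.H64.GG.TC

/-!
# Row RAMT of the board GG: transfer of the bound for the ramification
-/

set_option autoImplicit false

open NumberField Pool.Agent.H64.GG Pool.Agent.H29.LG

namespace Pool.Agent.H69.GG

/-- **Row RAMT.** -/
theorem pf_RAMT (hEXTP : Pool.Agent.H29.LG.T_EXTP) : T_RAMT := by
  intro F _ E K p δ hp hδ hE _ hKE hRam M _ hKM w hwp x hxK hx1
  obtain ⟨α, hα⟩ := Field.exists_primitive_element ℚ M
  let M' : IntermediateField F Om := E ⊔ IntermediateField.adjoin F {(α : Om)}
  have hαint : IsIntegral F (α : Om) :=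
    (IsIntegral.map M.val (Algebra.IsIntegral.isIntegral (R := ℚ) α)).tower_top
  haveI : FiniteDimensional F (IntermediateField.adjoin F {(α : Om)}) :=
    IntermediateField.adjoin.finiteDimensional hαint
  haveI : FiniteDimensional F M' := IntermediateField.finiteDimensional_sup _ _
  haveI : FiniteDimensional ℚ M' := FiniteDimensional.trans ℚ F M'
  haveI : NumberField M' := { to_charZero := inferInstance, to_finiteDimensional := inferInstance }
  have hM : ∀ z : M, (z : Om) ∈ M' := by
    have h1 : (⊤ : IntermediateField ℚ M) ≤ (M'.restrictScalars ℚ).comap M.val := by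
      rw [← hα, IntermediateField.adjoin_simple_le_iff]
      have h2 : IntermediateField.adjoin F {(α : Om)} ≤ M' := le_sup_right
      exact h2 (IntermediateField.mem_adjoin_simple_self F (α : Om))
    intro z
    exact h1 (IntermediateField.mem_top (x := z))
  let ι : M →+* M' :=
    { toFun := fun z => ⟨(z : Om), hM z⟩
      map_one' := rfl
      map_mul' := fun _ _ => rfl
      map_zero' := rfl
      map_add' := fun _ _ => rfl }
  letI : Algebra M M' := ι.toAlgebra
  obtain ⟨w', k, hk, hw'⟩ := hEXTP M M' w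
  have hp' : w'.1 (p : M') = w.1 (p : M) ^ k := by
    rw [← hw']
    congr 1
  have hx' : w'.1 (ι x) = w.1 x ^ k := hw' x
  have h1 : w'.1 (p : M') < 1 := by
    rw [hp']
    exact Real.rpow_lt_one (w.1.nonneg _) hwp hk
  have h2 : w'.1 (ι x) < 1 := by
    rw [hx']
    exact Real.rpow_lt_one (w.1.nonneg _) hx1 hk
  have h3 := hRam M' le_sup_left w' h1 (ι x) (hKE _ hxK) h2
  rw [hx', hp', ← Real.rpow_mul (w.1.nonneg _), mul_comm k δ, Real.rpow_mul (w.1.nonneg _)] at h3
  exact (Real.rpow_le_rpow_iff (w.1.nonneg _) (Real.rpow_nonneg (w.1.nonneg _) _) hk).1 h3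

end Pool.Agent.H69.GG
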