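import Pool.Agent.H64.GG.TC

/-!
# Row APX of the board GG: a unit at one place which is small at the other places above `p`
-/

set_option autoImplicit false

open Finset NumberField IsDedekindDomain Pool.Agent.H64.GG

namespace Pool.Agent.H69.GG

/-- **Row APX.** -/
theorem pf_APX : T_APX := by
  classical
  intro M _ _ p hp w hwp
  have hp0 : (p : M) ≠ 0 := by exact_mod_cast hp.ne_zero
  have hfin : Set.Finite {w' : FinitePlace M | w'.1 (p : M) < 1 ∧ w' ≠ w} := by
    refine Set.Finite.subset (FinitePlace.hasFiniteMulSupport hp0) ?_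
    intro w' hw'
    rw [Function.mem_mulSupport]
    exact (ne_of_lt hw'.1)
  let S : Finset (FinitePlace M) := hfin.toFinset
  let P : FinitePlace M → Ideal (𝓞 M) := fun w' => (FinitePlace.maximalIdeal w').asIdeal
  have hS : ∀ w', w' ∈ S ↔ (w'.1 (p : M) < 1 ∧ w' ≠ w) := fun w' => hfin.mem_toFinset
  have hnle : ¬ (∏ w' ∈ S, P w') ≤ P w := by
    intro hle
    obtain ⟨w', hw', hle'⟩ :=
      (Ideal.IsPrime.prod_le (FinitePlace.maximalIdeal w).isPrime).1 hle
    have heq : P w' = P w :=
      (FinitePlace.maximalIdeal w').isMaximal.eq_of_le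
        (FinitePlace.maximalIdeal w).isPrime.ne_top hle'
    have heq2 : FinitePlace.maximalIdeal w' = FinitePlace.maximalIdeal w :=
      HeightOneSpectrum.ext heq
    exact ((hS w').1 hw').2 ((FinitePlace.maximalIdeal_inj w' w).1 heq2)
  obtain ⟨s, hs, hsw⟩ := Set.not_subset.1 hnle
  refine ⟨algebraMap (𝓞 M) M s, ?_, ?_, ?_⟩
  · intro v _
    have h1 := FinitePlace.norm_le_one (K := M) (FinitePlace.maximalIdeal v) s
    rw [FinitePlace.norm_embedding_eq] at h1
    exact h1
  · have h1 := (FinitePlace.norm_eq_one_iff_notMem (K := M) (FinitePlace.maximalIdeal w) s).2 hsw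
    rw [FinitePlace.norm_embedding_eq] at h1
    exact h1
  · intro w' hw' hne
    have hmem : s ∈ P w' := by
      have h1 : (∏ w' ∈ S, P w') ≤ P w' :=
        Ideal.prod_le_inf.trans (Finset.inf_le ((hS w').2 ⟨hw', hne⟩))
      exact h1 hs
    have h1 := (FinitePlace.norm_lt_one_iff_mem (K := M) (FinitePlace.maximalIdeal w') s).2 hmem
    rw [FinitePlace.norm_embedding_eq] at h1
    exact h1

end Pool.Agent.H69.GG
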