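import Pool.Agent.H75.GG.Targets2

set_option autoImplicit false

namespace Pool.Agent.H69.GG

open Finset Filter Pool.Agent.H6.NB Pool.Agent.H70.OQ Pool.Agent.H75.GS Pool.Agent.H75.GG

/-- the special strings from `(m, j)` on -/
def Vs {G : Dat} (ω : Cfg G) (l m j : ℕ) : Set (List Bool) :=
  {w | ∃ (n' : ℕ) (k' : Fin (G.r n')), G.n0 ≤ n' ∧ l < G.H n' ∧
    (m < n' ∨ (m = n' ∧ j ≤ k'.1)) ∧ w = ust (cfS ω n') k'}

theorem vs_len {G : Dat} (ω : Cfg G) (l m j : ℕ) {w : List Bool} (h : w ∈ Vs ω l m j) :
    3 * m + 1 ≤ w.length := by
  obtain ⟨n', k', -, -, h1, rfl⟩ := h
  unfold ust pst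
  simp only [List.length_cons, List.length_append, List.length_ofFn]
  have : m ≤ n' := by
    rcases h1 with h1 | h1
    · exact h1.le
    · exact h1.1.le
  omega

theorem pf_HYE : T_HYE := by
  intro G ω O s hloc hne
  by_contra hcon
  push Not at hcon
  apply hne
  have hA : ∀ t m : ℕ, m + t = s.length + 1 →
      (G.acc s (mks (Vs ω s.length m 0) O) ↔ G.acc s O) := by
    intro t
    induction t with
    | zero =>
      intro m hm
      apply hloc
      intro w hw
      unfold mks
      rw [if_neg]
      intro hV
      have h1 := vs_len ω _ _ _ hV
      nlinarith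
    | succ t ih =>
      intro m hm
      have hB : ∀ u j : ℕ, j + u = G.r m →
          (G.acc s (mks (Vs ω s.length m j) O) ↔ G.acc s O) := by
        intro u
        induction u with
        | zero =>
          intro j hj
          have h1 : Vs ω s.length m j = Vs ω s.length (m + 1) 0 := by
            ext w
            constructor
            · rintro ⟨n', k', h2, h3, h4, h5⟩
              refine ⟨n', k', h2, h3, ?_, h5⟩
              rcases h4 with h4 | ⟨h4, h6⟩
              · omega
              · subst h4
                have := k'.2
                omega
            · rintro ⟨n', k', h2, h3, h4, h5⟩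
              refine ⟨n', k', h2, h3, Or.inl ?_, h5⟩
              omega
          rw [h1]
          exact ih (m + 1) (by omega)
        | succ u ihu =>
          intro j hj
          have hjr : j < G.r m := by omega
          have h0 := ihu (j + 1) (by omega)
          have hLat : Vs ω s.length m (j + 1) = Lat ω m ⟨j, hjr⟩ s.length := by
            ext w
            constructor
            · rintro ⟨n', k', h2, h3, h4, h5⟩
              refine ⟨n', k', h2, h3, ?_, h5⟩
              rcases h4 with h4 | h4
              · exact Or.inl h4
              · exact Or.inr ⟨h4.1, h4.2⟩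
            · rintro ⟨n', k', h2, h3, h4, h5⟩
              refine ⟨n', k', h2, h3, ?_, h5⟩
              rcases h4 with h4 | h4
              · exact Or.inl h4
              · exact Or.inr ⟨h4.1, h4.2⟩
          by_cases hc : G.n0 ≤ m ∧ s.length < G.H m
          · have h1 := hcon m ⟨j, hjr⟩ hc.1 hc.2
            unfold ign at h1
            rw [← hLat] at h1
            rw [← h0, ← h1]
            have h2 : mks (Vs ω s.length m j) O =
                mks (Vs ω s.length m (j + 1)) (msk (ust (cfS ω m) ⟨j, hjr⟩) O) := by
              funext w
              unfold mks msk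
              by_cases h3 : w ∈ Vs ω s.length m (j + 1)
              · rw [if_pos h3]
                obtain ⟨n', k', h4, h5, h6, h7⟩ := h3
                apply if_pos
                refine ⟨n', k', h4, h5, ?_, h7⟩
                rcases h6 with h6 | h6
                · exact Or.inl h6
                · exact Or.inr ⟨h6.1, by omega⟩
              · rw [if_neg h3]
                by_cases h4 : w = ust (cfS ω m) ⟨j, hjr⟩
                · rw [if_pos h4]
                  exact if_pos ⟨m, ⟨j, hjr⟩, hc.1, hc.2, Or.inr ⟨rfl, le_rfl⟩, h4⟩
                · rw [if_neg h4]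
                  apply if_neg
                  rintro ⟨n', k', h5, h6, h7, h8⟩
                  rcases h7 with h7 | ⟨h7, h9⟩
                  · exact h3 ⟨n', k', h5, h6, Or.inl h7, h8⟩
                  · subst h7
                    by_cases h10 : j = k'.1
                    · have h11 : k' = ⟨j, hjr⟩ := Fin.ext h10.symm
                      exact h4 (by rw [h8, h11])
                    · exact h3 ⟨m, k', h5, h6, Or.inr ⟨rfl, by omega⟩, h8⟩
            rw [h2]
          · have h2 : Vs ω s.length m j = Vs ω s.length m (j + 1) := by
              ext w
              constructor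
              · rintro ⟨n', k', h4, h5, h6, h7⟩
                refine ⟨n', k', h4, h5, Or.inl ?_, h7⟩
                rcases h6 with h6 | ⟨h6, h8⟩
                · exact h6
                · subst h6
                  exact absurd ⟨h4, h5⟩ hc
              · rintro ⟨n', k', h4, h5, h6, h7⟩
                refine ⟨n', k', h4, h5, ?_, h7⟩
                rcases h6 with h6 | h6
                · exact Or.inl h6
                · exact Or.inr ⟨h6.1, by omega⟩
            rw [h2]
            exact h0
      exact hB (G.r m) 0 (by omega)
  have h0 := hA (s.length + 1) 0 (by omega)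
  have h1 : Vs ω s.length 0 0 = Spt ω s.length := by
    ext w
    constructor
    · rintro ⟨n', k', h4, h5, h6, h7⟩
      exact ⟨n', k', h4, h5, h7⟩
    · rintro ⟨n', k', h4, h5, h7⟩
      exact ⟨n', k', h4, h5, by omega, h7⟩
  rw [h1] at h0
  exact h0

end Pool.Agent.H69.GG
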