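import Pool.Agent.H75.GG.Targets2

set_option autoImplicit false

namespace Pool.Agent.H69.GG

open Finset Filter Pool.Agent.H6.NB Pool.Agent.H70.OQ Pool.Agent.H75.GS Pool.Agent.H75.GG

theorem put_self {G : Dat} (ω : Cfg G) (n : ℕ) (p : Wn n) (y : Spc G n)
    (κ : Om n (2 ^ G.aa n) → Bool)
    (P : Blk (fun s : Om n (2 ^ G.aa n) => ns s.1) fun s => qs s.1) :
    cfS (put ω n p y κ P) n = y ∧ cfT (put ω n p y κ P) n = p := by
  have h : put ω n p y κ P (.inl n) = ((p, y) : Wn n × Spc G n) := by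
    unfold put
    exact dif_pos rfl
  unfold cfS cfT
  rw [h]
  exact ⟨rfl, rfl⟩

theorem put_other {G : Dat} (ω : Cfg G) (n : ℕ) (p : Wn n) (y : Spc G n)
    (κ : Om n (2 ^ G.aa n) → Bool)
    (P : Blk (fun s : Om n (2 ^ G.aa n) => ns s.1) fun s => qs s.1) {m : ℕ} (h : n ≠ m) :
    cfS (put ω n p y κ P) m = cfS ω m := by
  have h : put ω n p y κ P (.inl m) = ω (.inl m) := by
    unfold put
    exact dif_neg (Ne.symm h)
  unfold cfS
  rw [h]

theorem ust_put {G : Dat} (ω : Cfg G) (n : ℕ) (k : Fin (G.r n)) (p p' : Wn n) (y y' : Spc G n)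
    (κ κ' : Om n (2 ^ G.aa n) → Bool)
    (P P' : Blk (fun s : Om n (2 ^ G.aa n) => ns s.1) fun s => qs s.1)
    (hy : ∀ k' ≠ k, y k' = y' k') (m : ℕ) (j : Fin (G.r m)) (h : n ≠ m ∨ k.1 ≠ j.1) :
    ust (cfS (put ω n p y κ P) m) j = ust (cfS (put ω n p' y' κ' P') m) j := by
  by_cases hnm : n = m
  · subst hnm
    rw [(put_self ω n p y κ P).1, (put_self ω n p' y' κ' P').1]
    have hj : j ≠ k := by
      intro hjk
      rcases h with h | h
      · exact h rfl
      · exact h (by rw [hjk])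
    unfold ust Pool.Agent.H75.GG.row
    rw [hy j hj]
  · rw [put_other ω n p y κ P hnm, put_other ω n p' y' κ' P' hnm]

theorem pf_OFF : T_OFF := by
  intro G ω n k p p' y y' κ κ' P P' hn
  refine ⟨?_, ?_, put_self ω n p y κ P⟩
  · funext s O
    have hu : pst n (Pool.Agent.H75.GG.row y k) (y k).2 = ust (cfS (put ω n p y κ P) n) k := by
      rw [(put_self ω n p y κ P).1]
      rfl
    unfold mskA ign
    by_cases hs : s.length < n ^ 2 ^ G.a0 n
    · rw [if_pos hs]
      congr 1
      funext w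
      unfold mks msk
      by_cases h1 : w ∈ Oth (put ω n p y κ P) n k s.length
      · rw [if_pos h1]
        obtain ⟨m, j, h2, h3, h4, h5⟩ := h1
        exact if_pos ⟨m, j, h2, h3, h5⟩
      · rw [if_neg h1]
        by_cases h2 : w = pst n (Pool.Agent.H75.GG.row y k) (y k).2
        · rw [if_pos h2]
          exact if_pos ⟨n, k, hn, hs, by rw [h2, hu]⟩
        · rw [if_neg h2]
          apply if_neg
          rintro ⟨m, j, h3, h4, h5⟩
          by_cases h6 : n ≠ m ∨ k.1 ≠ j.1
          · exact h1 ⟨m, j, h3, h4, h6, h5⟩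
          · push Not at h6
            obtain ⟨h7, h8⟩ := h6
            subst h7
            have h9 : k = j := Fin.ext h8
            subst h9
            exact h2 (by rw [h5, hu])
    · rw [if_neg hs]
      congr 2
      ext w
      constructor
      · rintro ⟨m, j, h3, h4, h5⟩
        refine ⟨m, j, h3, h4, Or.inl ?_, h5⟩
        intro hnm
        subst hnm
        exact hs h4
      · rintro ⟨m, j, h3, h4, h5, h6⟩
        exact ⟨m, j, h3, h4, h6⟩
  · intro hy
    constructor
    · funext l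
      ext w
      constructor
      · rintro ⟨m, j, h3, h4, h5, h6⟩
        exact ⟨m, j, h3, h4, h5, by rw [h6, ust_put ω n k p p' y y' κ κ' P P' hy m j h5]⟩
      · rintro ⟨m, j, h3, h4, h5, h6⟩
        exact ⟨m, j, h3, h4, h5, by rw [h6, ust_put ω n k p p' y y' κ κ' P P' hy m j h5]⟩
    · funext l
      have hh : ∀ (m : ℕ) (j : Fin (G.r m)), (n < m ∨ (n = m ∧ k.1 < j.1)) →
          (n ≠ m ∨ k.1 ≠ j.1) := by
        intro m j h
        rcases h with h | h
        · exact Or.inl h.ne
        · exact Or.inr h.2.ne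
      ext w
      constructor
      · rintro ⟨m, j, h3, h4, h5, h6⟩
        exact ⟨m, j, h3, h4, h5, by
          rw [h6, ust_put ω n k p p' y y' κ κ' P P' hy m j (hh m j h5)]⟩
      · rintro ⟨m, j, h3, h4, h5, h6⟩
        exact ⟨m, j, h3, h4, h5, by
          rw [h6, ust_put ω n k p p' y y' κ κ' P P' hy m j (hh m j h5)]⟩

end Pool.Agent.H69.GG
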